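import Pool.Agent.Helper50.DS.Glue
import Pool.Agent.Helper5.DS.Gen

/-!
# Project DS (MP_743798_lc): stages of names
-/

set_option autoImplicit false
set_option linter.unusedSectionVars false

namespace Pool.Agent.Helper50.DS

open Pool.Agent.Helper33.HM

section Iter

variable {T : Type} [Preorder T] (e : Cod T)

/-- A family of conditions below `i` generates an element of `Sub e i`. -/
theorem h83_gen_mem_sub {i : Ordinal.{0}} {A : Set (P e)} (hA : ∀ a ∈ A, Cnd.lt a i) :
    RO.gen A ∈ Sub e i := by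
  intro p hp q hqp
  refine RO.mem_gen.2 fun q' hq' => ?_
  have h1 : LEi e i q' p := LEi_trans e i (hq' i) hqp
  obtain ⟨r, hr, a, ha, hra⟩ := RO.mem_gen.1 hp _ (glue_le e h1)
  have h2 : LEi e i r q' := LEi_trans e i (hr i) (glue_LEi e le_rfl q' p)
  refine ⟨glue i r q', glue_le e h2, a, ha, ?_⟩
  exact le_of_LEi e (hA a ha) (LEi_trans e i (glue_LEi e le_rfl r q') (hra i))

/-- An enumeration of a countable set. -/
theorem h83_enum {X : Type 1} {C : Set X} (hC : C.Countable) :
    ∃ f : ℕ → Option X, ∀ a, a ∈ C ↔ ∃ i, f i = some a := by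
  have := hC.toEncodable
  refine ⟨fun i => (Encodable.decode i : Option C).map Subtype.val, fun a => ⟨fun ha => ?_, ?_⟩⟩
  · refine ⟨Encodable.encode (⟨a, ha⟩ : C), ?_⟩
    show (Encodable.decode (Encodable.encode (⟨a, ha⟩ : C)) : Option C).map Subtype.val = some a
    rw [Encodable.encodek]
    rfl
  · rintro ⟨i, hi⟩
    obtain ⟨x, -, hx⟩ := Option.map_eq_some_iff.1 hi
    rw [← hx]
    exact x.2

theorem h83_gen_self {X : Type 1} [Preorder X] (U : RO X) : RO.gen {p : X | p ∈ U} = U := by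
  apply RO.ext'
  intro p
  constructor
  · intro hp
    apply RO.mem_reg
    intro q hq
    obtain ⟨r, hr, a, ha, hra⟩ := RO.mem_gen.1 hp q hq
    exact ⟨r, hr, RO.mem_lower hra ha⟩
  · intro hp
    exact RO.mem_gen.2 fun q hq => ⟨q, le_rfl, q, RO.mem_lower hq hp, le_rfl⟩

theorem exists_cod (hc : CCC (RO (P e))) {j : Ordinal.{0}} {U : RO (P e)} (hU : U ∈ Sub e j) :
    ∃ c : ℕ → Option (Cnd T), (∀ i a, c i = some a → Cnd.lt a j) ∧
      U = RO.gen {a : P e | ∃ i, c i = some a} := by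
  obtain ⟨C, hCS, hC, hgen⟩ := exists_countable_gen hc {a : P e | ∃ p ∈ U, a = (res j p : Cnd T)}
  obtain ⟨f, hf⟩ := h83_enum hC
  refine ⟨f, fun i a hia => ?_, ?_⟩
  · obtain ⟨p, -, hp⟩ := hCS ((hf a).2 ⟨i, hia⟩)
    rw [hp]
    exact res_lt j p
  · have e1 : {a : P e | ∃ i, f i = some a} = C := by
      ext a
      exact (hf a).symm
    have e2 : RO.gen {a : P e | ∃ i, f i = some a} = RO.gen {a : P e | ∃ p ∈ U, a = (res j p : Cnd T)} := by
      rw [e1, hgen]
    refine Eq.trans ?_ e2.symm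
    apply RO.ext'
    intro p
    constructor
    · intro hp
      refine RO.mem_gen.2 fun q hq => ⟨q, le_rfl, (res j q : Cnd T), ⟨q, RO.mem_lower hq hp, rfl⟩, ?_⟩
      exact le_of_LEi e (res_lt j q) (LEi_res e le_rfl q)
    · intro hp
      apply RO.mem_reg
      intro q hq
      obtain ⟨r, hr, a, ⟨p', hp', rfl⟩, hra⟩ := RO.mem_gen.1 hp q hq
      exact ⟨r, hr, RO.mem_lower hra (hU p' hp' _ (res_LEi e le_rfl p'))⟩

theorem exists_stage (hc : CCC (RO (P e))) {ι : Type} (U : ι → RO (P e)) :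
    ∃ j, ∀ i, U i ∈ Sub e j := by
  choose C _ hC hgen using fun i => exists_countable_gen hc {p : P e | p ∈ U i}
  choose f hf using fun i => h83_enum (hC i)
  choose b hb using fun p : P e => exists_lt (T := T) p
  let g : ι × ℕ → Ordinal.{0} := fun x => match f x.1 x.2 with
    | some a => b a
    | none => 0
  refine ⟨⨆ x, g x, fun i => ?_⟩
  have e1 : U i = RO.gen (C i) := by rw [hgen, h83_gen_self]
  rw [e1]
  apply h83_gen_mem_sub e
  intro a ha
  obtain ⟨n, hn⟩ := (hf i a).1 ha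
  have h1 : g (i, n) = b a := by
    show (match f i n with
      | some a => b a
      | none => 0) = b a
    rw [hn]
  exact lt_mono (hb a) (h1 ▸ Ordinal.le_iSup g (i, n))

end Iter

end Pool.Agent.Helper50.DS
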